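import Pool.Agent.Helper69.MF.StA
import Pool.Agent.Helper31.CY.St1

/-!
# Project MF (MP_9583f0_gt), module GPH
-/

set_option autoImplicit false

open Set Topology Filter MeasureTheory
open Pool.Agent.Helper31.CY Pool.Agent.Helper69.MF

namespace Pool.Agent.Helper71.MF

lemma gphNorm (e : E3) (h : dt e e = 1) : ‖e‖ = 1 := by
  have h2 : ‖e‖ ^ 2 = 1 := by
    rw [EuclideanSpace.norm_sq_eq]
    simp only [Fin.sum_univ_three, Real.norm_eq_abs, sq_abs]
    unfold dt at h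
    nlinarith [h]
  have h0 : 0 ≤ ‖e‖ := norm_nonneg e
  nlinarith [h2, h0]

lemma gphExt (x y : E3) (h0 : x 0 = y 0) (h1 : x 1 = y 1) (h2 : x 2 = y 2) : x = y := by
  ext i
  fin_cases i
  · exact h0
  · exact h1
  · exact h2

lemma gphPt (a b c : ℝ) : (pt a b c) 0 = a ∧ (pt a b c) 1 = b ∧ (pt a b c) 2 = c := by
  refine ⟨?_, ?_, ?_⟩ <;> simp [pt]

/-- implicit function, quantitative -/
lemma gphAbs (F : ℝ → ℝ → ℝ → ℝ) (δ η c ε : ℝ) (hc : 0 < c) (hη0 : 0 < η)
    (hη1 : η ≤ 1 / 4) (hη2 : 2 * η * (1 + c) ≤ ε) (hF0 : F 0 0 0 = 0) (hδ : 0 < δ)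
    (hkey : ∀ a v w a' v' w' : ℝ, |a| + |v| + |w| < δ → |a'| + |v'| + |w'| < δ →
      |(F a v w - F a' v' w') - ((w - w') - c * (v - v'))| ≤
        η * (|a - a'| + |v - v'| + |w - w'|))
    (hFc : ∀ a v r : ℝ, |a| + |v| + r < δ → ContinuousOn (fun w => F a v w) (Set.Icc (-r) r))
    (ρ : ℝ) (hρ : 0 < ρ) (hρδ : (2 * c + 3) * ρ < δ) :
    ∃ g : ℝ → ℝ → ℝ, Clo c ε ρ g ∧
      ∀ a v w : ℝ, |a| ≤ ρ → |v| ≤ ρ → |w| ≤ (2 * c + 1) * ρ → (F a v w = 0 ↔ w = g a v) := by
  have hsm : ∀ a v w : ℝ, |a| ≤ ρ → |v| ≤ ρ → |w| ≤ (2 * c + 1) * ρ → |a| + |v| + |w| < δ := by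
    intro a v w ha hv hw
    linarith
  have hKρ : 0 < (2 * c + 1) * ρ := by positivity
  have hz : |(0 : ℝ)| + |(0 : ℝ)| + |(0 : ℝ)| < δ := by simpa using hδ
  -- uniqueness
  have huniq : ∀ a v w w' : ℝ, |a| ≤ ρ → |v| ≤ ρ → |w| ≤ (2 * c + 1) * ρ →
      |w'| ≤ (2 * c + 1) * ρ → F a v w = 0 → F a v w' = 0 → w = w' := by
    intro a v w w' ha hv hw hw' h h'
    have h1 := hkey a v w a v w' (hsm a v w ha hv hw) (hsm a v w' ha hv hw')
    rw [h, h'] at h1
    have h4 : |w - w'| ≤ η * |w - w'| := by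
      have h5 : |(0 - 0 : ℝ) - ((w - w') - c * (v - v))| = |w - w'| := by
        rw [show (0 - 0 : ℝ) - ((w - w') - c * (v - v)) = -(w - w') by ring, abs_neg]
      rw [h5] at h1
      simpa using h1
    have h6 : 0 ≤ |w - w'| := abs_nonneg _
    have h7 : η * |w - w'| ≤ 1 / 4 * |w - w'| := mul_le_mul_of_nonneg_right hη1 h6
    have h9 : |w - w'| = 0 := by linarith
    have h8 := abs_eq_zero.mp h9
    linarith
  have hbd : ∀ a v : ℝ, |a| ≤ ρ → |v| ≤ ρ →
      η * (|a| + |v| + (2 * c + 1) * ρ) ≤ 1 / 2 * (c * ρ) + 3 / 4 * ρ := by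
    intro a v ha hv
    have h6 : |a| + |v| + (2 * c + 1) * ρ ≤ (2 * c + 3) * ρ := by linarith
    have h8 : 0 ≤ (2 * c + 3) * ρ := by positivity
    calc η * (|a| + |v| + (2 * c + 1) * ρ) ≤ η * ((2 * c + 3) * ρ) :=
          mul_le_mul_of_nonneg_left h6 hη0.le
      _ ≤ 1 / 4 * ((2 * c + 3) * ρ) := mul_le_mul_of_nonneg_right hη1 h8
      _ = 1 / 2 * (c * ρ) + 3 / 4 * ρ := by ring
  have hcρ : 0 < c * ρ := mul_pos hc hρ
  -- existence
  have hex : ∀ a v : ℝ, |a| ≤ ρ → |v| ≤ ρ → ∃ w : ℝ, |w| ≤ (2 * c + 1) * ρ ∧ F a v w = 0 := by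
    intro a v ha hv
    have hcont := hFc a v ((2 * c + 1) * ρ) (by linarith)
    have hav := abs_le.mp hv
    have hw1 : |(2 * c + 1) * ρ| = (2 * c + 1) * ρ := abs_of_pos hKρ
    have hw2 : |(-((2 * c + 1) * ρ))| = (2 * c + 1) * ρ := by rw [abs_neg, hw1]
    have hb := hbd a v ha hv
    have hpos : 0 < F a v ((2 * c + 1) * ρ) := by
      have h1 := hkey a v ((2 * c + 1) * ρ) 0 0 0 (hsm a v _ ha hv (le_of_eq hw1)) hz
      rw [hF0, sub_zero, sub_zero, sub_zero, sub_zero, hw1] at h1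
      have h3 := (abs_le.mp h1).1
      have h7 : c * v ≤ c * ρ := mul_le_mul_of_nonneg_left hav.2 hc.le
      linarith
    have hneg : F a v (-((2 * c + 1) * ρ)) < 0 := by
      have h1 := hkey a v (-((2 * c + 1) * ρ)) 0 0 0 (hsm a v _ ha hv (le_of_eq hw2)) hz
      rw [hF0, sub_zero, sub_zero, sub_zero, sub_zero, hw2] at h1
      have h3 := (abs_le.mp h1).2
      have h7 : c * (-ρ) ≤ c * v := mul_le_mul_of_nonneg_left hav.1 hc.le
      linarith
    have hle : -((2 * c + 1) * ρ) ≤ (2 * c + 1) * ρ := by linarith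
    have hmem : (0 : ℝ) ∈ Set.Icc (F a v (-((2 * c + 1) * ρ))) (F a v ((2 * c + 1) * ρ)) :=
      ⟨hneg.le, hpos.le⟩
    obtain ⟨w, hw, hw0⟩ := intermediate_value_Icc hle hcont hmem
    exact ⟨w, abs_le.mpr ⟨hw.1, hw.2⟩, hw0⟩
  classical
  choose! G hG1 hG2 using hex
  refine ⟨G, ⟨?_, ?_⟩, ?_⟩
  · have hz1 : |(0 : ℝ)| ≤ ρ := by simpa using hρ.le
    exact huniq 0 0 _ 0 hz1 hz1 (hG1 0 0 hz1 hz1) (by simpa using hKρ.le) (hG2 0 0 hz1 hz1) hF0
  · intro a v a' v' ha hv ha' hv'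
    have h3 := hkey a v (G a v) a' v' (G a' v') (hsm _ _ _ ha hv (hG1 a v ha hv))
      (hsm _ _ _ ha' hv' (hG1 a' v' ha' hv'))
    rw [hG2 a v ha hv, hG2 a' v' ha' hv'] at h3
    set X : ℝ := (G a v - c * v) - (G a' v' - c * v') with hX
    have h6 : |X| ≤ η * (|a - a'| + |v - v'| + |G a v - G a' v'|) := by
      have h7 : (0 - 0 : ℝ) - ((G a v - G a' v') - c * (v - v')) = -X := by
        rw [hX]
        ring
      rw [h7, abs_neg] at h3
      exact h3
    have h8 : |G a v - G a' v'| ≤ |X| + c * |v - v'| := by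
      have h9 : G a v - G a' v' = X + c * (v - v') := by
        rw [hX]
        ring
      rw [h9]
      refine le_trans (abs_add_le _ _) ?_
      rw [abs_mul, abs_of_pos hc]
    have hXn : 0 ≤ |X| := abs_nonneg _
    have ha0 : 0 ≤ |a - a'| := abs_nonneg _
    have hv0 : 0 ≤ |v - v'| := abs_nonneg _
    have h10 : |X| ≤ η * (|a - a'| + |v - v'| + (|X| + c * |v - v'|)) :=
      le_trans h6 (mul_le_mul_of_nonneg_left (by linarith) hη0.le)
    have h11 : η * |X| ≤ 1 / 4 * |X| := mul_le_mul_of_nonneg_right hη1 hXn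
    have e1 : η * (|a - a'| + |v - v'| + (|X| + c * |v - v'|)) =
        η * |a - a'| + η * |v - v'| + η * |X| + η * c * |v - v'| := by ring
    have e2 : 2 * η * (1 + c) * (|a - a'| + |v - v'|) = 2 * (η * |a - a'|) +
        2 * (η * |v - v'|) + 2 * (η * c * |a - a'|) + 2 * (η * c * |v - v'|) := by ring
    have p1 : 0 ≤ η * |a - a'| := by positivity
    have p2 : 0 ≤ η * |v - v'| := by positivity
    have p3 : 0 ≤ η * c * |a - a'| := by positivity
    have p4 : 0 ≤ η * c * |v - v'| := by positivity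
    have h12 : |X| ≤ 2 * η * (1 + c) * (|a - a'| + |v - v'|) := by
      rw [e2]
      rw [e1] at h10
      linarith
    exact le_trans h12 (mul_le_mul_of_nonneg_right hη2 (by linarith))
  · intro a v w ha hv hw
    constructor
    · intro h
      exact huniq a v w (G a v) ha hv hw (hG1 a v ha hv) h (hG2 a v ha hv)
    · intro h
      rw [h]
      exact hG2 a v ha hv

/-- the local statement -/
lemma gphLocal (S : Set E3) (p : E3) (f : E3 → ℝ) (U : Set E3) (hU : IsOpen U) (hp : p ∈ U)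
    (hf : ContDiffOn ℝ 2 f U) (hS : ∀ x ∈ U, x ∈ S ↔ f x = 0) (hpS : p ∈ S)
    (τ n k : E3) (hτ : ‖τ‖ = 1) (hn : ‖n‖ = 1) (hk : ‖k‖ = 1) (α β c : ℝ)
    (hLτ : fderiv ℝ f p τ = 0) (hLn : fderiv ℝ f p n = α) (hLk : fderiv ℝ f p k = β)
    (hβ : β ≠ 0) (hc : 0 < c) (hcαβ : α = - (c * β)) (ε : ℝ) (hε : 0 < ε) :
    ∃ ρ0 : ℝ, 0 < ρ0 ∧ ∀ ρ : ℝ, 0 < ρ → ρ ≤ ρ0 → ∃ g : ℝ → ℝ → ℝ, Clo c ε ρ g ∧
      ∀ a v w : ℝ, |a| ≤ ρ → |v| ≤ ρ → |w| ≤ (2 * c + 1) * ρ →
        (fr p τ n k a v w ∈ S ↔ w = g a v) := by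
  obtain ⟨η, hη0, hη1, hη2⟩ : ∃ η : ℝ, 0 < η ∧ η ≤ 1 / 4 ∧ 2 * η * (1 + c) ≤ ε := by
    refine ⟨min (1 / 4) (ε / (2 * (1 + c))), lt_min (by norm_num) (by positivity),
      min_le_left _ _, ?_⟩
    have h1 : min (1 / 4) (ε / (2 * (1 + c))) ≤ ε / (2 * (1 + c)) := min_le_right _ _
    have h2 : (ε / (2 * (1 + c))) * (2 * (1 + c)) = ε := by field_simp
    have h3 : min (1 / 4) (ε / (2 * (1 + c))) * (2 * (1 + c)) ≤
      (ε / (2 * (1 + c))) * (2 * (1 + c)) := mul_le_mul_of_nonneg_right h1 (by positivity)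
    linarith
  have hβ' : 0 < |β| := abs_pos.mpr hβ
  have hstr : HasStrictFDerivAt f (fderiv ℝ f p) p := by
    have h1 : ContDiffAt ℝ 2 f p := hf.contDiffAt (hU.mem_nhds hp)
    exact h1.hasStrictFDerivAt (by norm_num)
  have hηβ : 0 < η * |β| := by positivity
  obtain ⟨s, hs, hs2⟩ := hstr.approximates_deriv_on_nhds (c := ⟨η * |β|, hηβ.le⟩)
    (Or.inr (by
      show (0 : ℝ) < η * |β|
      exact hηβ))
  obtain ⟨δ, hδ, hball⟩ := Metric.mem_nhds_iff.mp (Filter.inter_mem hs (hU.mem_nhds hp))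
  have hfp : f p = 0 := (hS p hp).mp hpS
  -- coordinates
  have hnorm : ∀ a v w : ℝ, ‖a • τ + v • n + w • k‖ ≤ |a| + |v| + |w| := by
    intro a v w
    calc ‖a • τ + v • n + w • k‖ ≤ ‖a • τ‖ + ‖v • n‖ + ‖w • k‖ := norm_add₃_le
      _ = |a| + |v| + |w| := by
        rw [norm_smul, norm_smul, norm_smul, hτ, hn, hk]
        simp [Real.norm_eq_abs]
  have hin : ∀ a v w : ℝ, |a| + |v| + |w| < δ → fr p τ n k a v w ∈ s ∧ fr p τ n k a v w ∈ U := by
    intro a v w h
    have h1 : fr p τ n k a v w ∈ Metric.ball p δ := by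
      rw [Metric.mem_ball, dist_eq_norm]
      have h2 : fr p τ n k a v w - p = a • τ + v • n + w • k := by
        unfold fr
        abel
      rw [h2]
      exact lt_of_le_of_lt (hnorm a v w) h
    exact hball h1
  have hkey : ∀ a v w a' v' w' : ℝ, |a| + |v| + |w| < δ → |a'| + |v'| + |w'| < δ →
      |(f (fr p τ n k a v w) / β - f (fr p τ n k a' v' w') / β) - ((w - w') - c * (v - v'))| ≤
        η * (|a - a'| + |v - v'| + |w - w'|) := by
    intro a v w a' v' w' h h'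
    have h1 := hs2 _ (hin a v w h).1 _ (hin a' v' w' h').1
    have h2 : fr p τ n k a v w - fr p τ n k a' v' w' =
        (a - a') • τ + (v - v') • n + (w - w') • k := by
      unfold fr
      rw [sub_smul, sub_smul, sub_smul]
      abel
    rw [h2] at h1
    have h3 : (fderiv ℝ f p) ((a - a') • τ + (v - v') • n + (w - w') • k) =
        (v - v') * α + (w - w') * β := by
      rw [map_add, map_add, map_smul, map_smul, map_smul, hLτ, hLn, hLk]
      simp
    rw [h3] at h1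
    have h4 := hnorm (a - a') (v - v') (w - w')
    have h5 : |f (fr p τ n k a v w) - f (fr p τ n k a' v' w') - ((v - v') * α + (w - w') * β)| ≤
        η * |β| * (|a - a'| + |v - v'| + |w - w'|) := by
      refine le_trans (le_of_eq (Real.norm_eq_abs _).symm) (le_trans h1 ?_)
      exact mul_le_mul_of_nonneg_left h4 hηβ.le
    have h6 : (f (fr p τ n k a v w) / β - f (fr p τ n k a' v' w') / β) -
        ((w - w') - c * (v - v')) =
        (f (fr p τ n k a v w) - f (fr p τ n k a' v' w') - ((v - v') * α + (w - w') * β)) / β := by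
      rw [hcαβ]
      field_simp
      ring
    rw [h6, abs_div, div_le_iff₀ hβ']
    calc _ ≤ η * |β| * (|a - a'| + |v - v'| + |w - w'|) := h5
      _ = η * (|a - a'| + |v - v'| + |w - w'|) * |β| := by ring
  have hfr0 : fr p τ n k 0 0 0 = p := by
    unfold fr
    simp
  have hFc : ∀ a v r : ℝ, |a| + |v| + r < δ →
      ContinuousOn (fun w => f (fr p τ n k a v w) / β) (Set.Icc (-r) r) := by
    intro a v r hr
    have h1 : ContinuousOn f U := hf.continuousOn
    have h2 : Continuous (fun w : ℝ => fr p τ n k a v w) := by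
      unfold fr
      fun_prop
    have h3 : ContinuousOn (fun w : ℝ => f (fr p τ n k a v w)) (Set.Icc (-r) r) := by
      refine h1.comp h2.continuousOn ?_
      intro w hw
      have h4 : |w| ≤ r := abs_le.mpr ⟨hw.1, hw.2⟩
      exact (hin a v w (by linarith)).2
    exact h3.div_const β
  have h2c : 0 < 2 * c + 3 := by linarith
  refine ⟨δ / (2 * (2 * c + 3)), by positivity, ?_⟩
  intro ρ hρ hρ0
  have hρδ : (2 * c + 3) * ρ < δ := by
    have h1 : (2 * c + 3) * ρ ≤ (2 * c + 3) * (δ / (2 * (2 * c + 3))) :=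
      mul_le_mul_of_nonneg_left hρ0 h2c.le
    have h2 : (2 * c + 3) * (δ / (2 * (2 * c + 3))) = δ / 2 := by field_simp
    linarith
  obtain ⟨g, hg1, hg2⟩ := gphAbs (fun a v w => f (fr p τ n k a v w) / β) δ η c ε hc hη0 hη1 hη2
    (by simp only [hfr0, hfp, zero_div]) hδ hkey hFc ρ hρ hρδ
  refine ⟨g, hg1, ?_⟩
  intro a v w ha hv hw
  have hin1 := (hin a v w (by linarith)).2
  rw [hS _ hin1, ← hg2 a v w ha hv hw]
  constructor
  · intro h
    simp only [h, zero_div]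
  · intro h
    rcases div_eq_zero_iff.mp h with h3 | h3
    · exact h3
    · exact absurd h3 hβ

theorem hGPH : StTC2 → StGPH := by
  intro hTC2 S p hreg hpS hrad hT hN
  obtain ⟨f, U, hU, hpU, hf, hgr, hS, -⟩ := hreg
  have hfp : f p = 0 := (hS p hpU).mp hpS
  have hTC : ∀ v, v ∈ TCn S p ↔ fderiv ℝ f p v = 0 :=
    hTC2 S p f U hU hpU (hf.of_le (by norm_num)) (hgr p hpU) hfp hS
  -- the angle
  have hrr : rad p ^ 2 = p 0 ^ 2 + p 1 ^ 2 := by
    unfold rad
    exact Real.sq_sqrt (by positivity)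
  obtain ⟨φ, hφ0, hφ1⟩ : ∃ φ : ℝ, p 0 = rad p * Real.cos φ ∧ p 1 = rad p * Real.sin φ := by
    refine ⟨Complex.arg ⟨p 0, p 1⟩, ?_, ?_⟩
    · have h1 := Complex.norm_mul_cos_arg (⟨p 0, p 1⟩ : ℂ)
      have h2 : ‖(⟨p 0, p 1⟩ : ℂ)‖ = rad p := by
        rw [Complex.norm_def, Complex.normSq_mk]
        unfold rad
        congr 1
        ring
      rw [h2] at h1
      exact h1.symm
    · have h1 := Complex.norm_mul_sin_arg (⟨p 0, p 1⟩ : ℂ)
      have h2 : ‖(⟨p 0, p 1⟩ : ℂ)‖ = rad p := by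
        rw [Complex.norm_def, Complex.normSq_mk]
        unfold rad
        congr 1
        ring
      rw [h2] at h1
      exact h1.symm
  set L := fderiv ℝ f p with hL
  have hcs := Real.sin_sq_add_cos_sq φ
  set e1 : E3 := pt (Real.cos φ) (Real.sin φ) 0 with he1
  set e2 : E3 := pt 0 0 1 with he2
  have hn0 : (nv φ) 0 = -Real.sin φ := (gphPt _ _ _).1
  have hn1 : (nv φ) 1 = Real.cos φ := (gphPt _ _ _).2.1
  have hn2 : (nv φ) 2 = 0 := (gphPt _ _ _).2.2
  have he10 : e1 0 = Real.cos φ := (gphPt _ _ _).1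
  have he11 : e1 1 = Real.sin φ := (gphPt _ _ _).2.1
  have he12 : e1 2 = 0 := (gphPt _ _ _).2.2
  have he20 : e2 0 = 0 := (gphPt _ _ _).1
  have he21 : e2 1 = 0 := (gphPt _ _ _).2.1
  have he22 : e2 2 = 1 := (gphPt _ _ _).2.2
  have hJ : Jv p = rad p • nv φ := by
    apply gphExt
    · rw [PiLp.smul_apply, hn0]
      show (pt (-(p 1)) (p 0) 0) 0 = _
      rw [(gphPt _ _ _).1, hφ1, smul_eq_mul]
      ring
    · rw [PiLp.smul_apply, hn1]
      show (pt (-(p 1)) (p 0) 0) 1 = _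
      rw [(gphPt _ _ _).2.1, smul_eq_mul]
      exact hφ0
    · rw [PiLp.smul_apply, hn2]
      show (pt (-(p 1)) (p 0) 0) 2 = _
      rw [(gphPt _ _ _).2.2]
      simp
  have hα : L (nv φ) ≠ 0 := by
    intro h
    apply hT
    show Jv p ∈ TCn S p
    rw [hTC, hJ, map_smul, h, smul_zero]
  have hdec : ∀ v : E3, v = (dt v e1) • e1 + (dt v (nv φ)) • nv φ + (dt v e2) • e2 := by
    intro v
    apply gphExt
    · simp only [PiLp.add_apply, PiLp.smul_apply, smul_eq_mul, dt, hn0, hn1, hn2, he10, he11,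
        he12, he20, he21, he22]
      linear_combination (-(v 0)) * hcs
    · simp only [PiLp.add_apply, PiLp.smul_apply, smul_eq_mul, dt, hn0, hn1, hn2, he10, he11,
        he12, he20, he21, he22]
      linear_combination (-(v 1)) * hcs
    · simp only [PiLp.add_apply, PiLp.smul_apply, smul_eq_mul, dt, hn0, hn1, hn2, he10, he11,
        he12, he20, he21, he22]
      ring
  have hAB : 0 < L e1 ^ 2 + L e2 ^ 2 := by
    rcases (by positivity : 0 ≤ L e1 ^ 2 + L e2 ^ 2).lt_or_eq with h | h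
    · exact h
    · exfalso
      have h1 : L e1 = 0 := by nlinarith [sq_nonneg (L e1), sq_nonneg (L e2)]
      have h2 : L e2 = 0 := by nlinarith [sq_nonneg (L e1), sq_nonneg (L e2)]
      apply hN
      intro v hv
      rw [hTC] at hv
      have h3 : L v = dt v (nv φ) * L (nv φ) := by
        conv_lhs => rw [hdec v]
        rw [map_add, map_add, map_smul, map_smul, map_smul, h1, h2]
        simp
      rw [h3] at hv
      rcases mul_eq_zero.mp hv with h4 | h4
      · rw [hJ]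
        have h5 : dt v (rad p • nv φ) = rad p * dt v (nv φ) := by
          simp only [dt, PiLp.smul_apply, smul_eq_mul]
          ring
        rw [h5, h4, mul_zero]
      · exact absurd h4 hα
  set R : ℝ := Real.sqrt (L e1 ^ 2 + L e2 ^ 2) with hR
  have hR0 : 0 < R := Real.sqrt_pos.mpr hAB
  have hR2 : R ^ 2 = L e1 ^ 2 + L e2 ^ 2 := Real.sq_sqrt hAB.le
  obtain ⟨σ, hσ2, hσα⟩ : ∃ σ : ℝ, σ ^ 2 = 1 ∧ σ * L (nv φ) < 0 := by
    rcases lt_or_gt_of_ne hα with h | h
    · exact ⟨1, by norm_num, by linarith⟩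
    · exact ⟨-1, by norm_num, by linarith⟩
  set A : ℝ := L e1 / R with hA
  set B : ℝ := L e2 / R with hB
  have hAB1 : A ^ 2 + B ^ 2 = 1 := by
    rw [hA, hB]
    field_simp
    linarith [hR2]
  set τ : E3 := (-B) • e1 + A • e2 with hτ
  set k : E3 := (σ * A) • e1 + (σ * B) • e2 with hk
  have hON : ON τ (nv φ) k := by
    refine ⟨?_, ?_, ?_, ?_, ?_, ?_⟩
    · simp only [hτ, PiLp.add_apply, PiLp.smul_apply, smul_eq_mul, dt, he10, he11, he12, he20,
        he21, he22]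
      linear_combination B ^ 2 * hcs + hAB1
    · simp only [dt, hn0, hn1, hn2]
      linear_combination hcs
    · simp only [hk, PiLp.add_apply, PiLp.smul_apply, smul_eq_mul, dt, he10, he11, he12, he20,
        he21, he22]
      linear_combination σ ^ 2 * A ^ 2 * hcs + σ ^ 2 * hAB1 + hσ2
    · simp only [hτ, PiLp.add_apply, PiLp.smul_apply, smul_eq_mul, dt, he10, he11, he12, he20,
        he21, he22, hn0, hn1, hn2]
      ring
    · simp only [hτ, hk, PiLp.add_apply, PiLp.smul_apply, smul_eq_mul, dt, he10, he11, he12, he20,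
        he21, he22]
      linear_combination (-(σ * A * B)) * hcs
    · simp only [hk, PiLp.add_apply, PiLp.smul_apply, smul_eq_mul, dt, he10, he11, he12, he20,
        he21, he22, hn0, hn1, hn2]
      ring
  have hLτ : L τ = 0 := by
    rw [hτ, map_add, map_smul, map_smul, smul_eq_mul, smul_eq_mul, hA, hB]
    ring
  have hLk : L k = σ * R := by
    rw [hk, map_add, map_smul, map_smul, smul_eq_mul, smul_eq_mul, hA, hB]
    have h1 : σ * (L e1 / R) * L e1 + σ * (L e2 / R) * L e2 = σ * (L e1 ^ 2 + L e2 ^ 2) / R := by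
      ring
    rw [h1, ← hR2]
    field_simp
  have hσ0 : σ ≠ 0 := by
    intro h
    rw [h] at hσ2
    norm_num at hσ2
  have hβ : σ * R ≠ 0 := mul_ne_zero hσ0 hR0.ne'
  have hcpos : 0 < -(L (nv φ)) / (σ * R) := by
    have h1 : -(L (nv φ)) / (σ * R) = -(σ * L (nv φ)) / R := by
      rw [div_eq_div_iff hβ hR0.ne']
      linear_combination (L (nv φ)) * R * hσ2
    rw [h1]
    apply div_pos _ hR0
    linarith
  refine ⟨τ, k, φ, -(L (nv φ)) / (σ * R), hON, ?_, ?_, ?_⟩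
  · simp only [dt, hn0, hn1, hn2]
    rw [hφ0, hφ1]
    ring
  · exact hcpos
  · intro ε hε
    exact gphLocal S p f U hU hpU hf hS hpS τ (nv φ) k (gphNorm _ hON.1) (gphNorm _ hON.2.1)
      (gphNorm _ hON.2.2.1) (L (nv φ)) (σ * R) _ hLτ rfl hLk hβ hcpos
      (by rw [div_mul_cancel₀ _ hβ, neg_neg]) ε hε

end Pool.Agent.Helper71.MF
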